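import Pool.Agent.Helper85.ES.StI2

/-!
# Project ES (MP_cb927e_an), part I: module OLV, one age level
-/

set_option autoImplicit false

open MeasureTheory Set Filter Topology
open scoped ENNReal RealInnerProductSpace

namespace Pool.Agent.Helper83.ES

open Pool.Agent.Helper85.ES Pool.Agent.Helper20.RG Pool.Agent.Helper20.RL
open Pool.Agent.Helper68.EP (Fb DQ3 Par Dat Sy q0 q1 DD Fo Rs)
open Pool.Agent.Helper61.EP (Nn D8 trS dat Yc)
open Pool.Agent.Helper68.ES (ag Eg th Rc hn Crit cr Lw)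
open Pool.Agent.Helper68.LM (Pl BB Bd Av HL ft fm DQ)

/-- the number of hits is monotone in the set -/
theorem olv_mono (sl : ℕ → ℝ) (c : ℕ → Pl) (m : ℕ → ℕ) (u : ℕ) (k : ℤ) (θ : ℝ) (F F' : Set Pl)
    (h : F ⊆ F') (x : Pl) :
    {j : ℕ | j < 2 ^ u ∧ Hit (sl j) (c j) (m j) u k
      {y | Rich F (sl j) (k - (u : ℤ)) (k - (m j : ℤ)) θ y} x}.ncard ≤
    {j : ℕ | j < 2 ^ u ∧ Hit (sl j) (c j) (m j) u k
      {y | Rich F' (sl j) (k - (u : ℤ)) (k - (m j : ℤ)) θ y} x}.ncard := by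
  apply ncard_le_ncard
  · rintro j ⟨h1, y, hy, h2⟩
    exact ⟨h1, y, le_trans (show _ ≤ _ from hy) (measure_mono (inter_subset_inter_left _ h)), h2⟩
  · exact (Set.finite_lt_nat (2 ^ u)).subset fun j hj => hj.1

/-- sums over the integers in blocks of length `G` -/
theorem olv_blocks (G : ℕ) (hG : 1 ≤ G) (a : ℤ → ℝ≥0∞) :
    ∑' k : ℤ, a k = ∑' l : ℤ, ∑ r ∈ Finset.range G, a (l * G + r) := by
  have : NeZero G := ⟨by omega⟩
  rw [← (Int.divModEquiv G).symm.tsum_eq]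
  have h := ENNReal.tsum_prod (f := fun (l : ℤ) (r : Fin G) => a ((Int.divModEquiv G).symm (l, r)))
  refine h.trans ?_
  refine tsum_congr fun l => ?_
  rw [tsum_fintype, Finset.sum_range]
  refine Finset.sum_congr rfl fun r _ => ?_
  rfl

/-- Module OLV. -/
theorem hOLV (hOEX : Pool.Agent.Helper85.ES.StOEX) (hOEG : Pool.Agent.Helper85.ES.StOEG)
    (hOSC : Pool.Agent.Helper85.ES.StOSC) : Pool.Agent.Helper85.ES.StOLV := by
  intro P A e ε e₂ Cf hA hSm hCf hε he₂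
  obtain ⟨-, hp13, -, -⟩ := hOEX P.p P.s e hSm
  have he : e ≤ 1 / 100 := hSm.2.2.2.2.1
  obtain ⟨u₁, ε₃, C, ε', hε₃, hC, hε', H⟩ := hOSC A P.p P.s e ε e₂ Cf hA hSm hCf hε he₂
  refine ⟨u₁ + 11, ε₃, 9 * C, ε', hε₃, by positivity, hε', ?_⟩
  intro Δ ct u q i E hu hSlo hj hq hq2 hcrit halt hE
  have hu11 : (11 : ℝ) ≤ u := by exact_mod_cast (by omega : 11 ≤ u)
  have hq3 : 3 ≤ q := by
    have h1 : (3 : ℝ) ≤ q := by nlinarith
    exact_mod_cast h1
  obtain ⟨D, hD⟩ : ∃ D : ℝ, D = DD P u := ⟨_, rfl⟩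
  have hDpos : 0 < D := by
    rw [hD]
    unfold DD
    positivity
  have hD8 : D8 P.s u = 8 * D := by
    rw [hD]
    rfl
  obtain ⟨-, -, hG3⟩ := hOEG E D hE hDpos
  obtain ⟨G, hG⟩ : ∃ G : ℕ, G = 2 ^ (q - 3) := ⟨_, rfl⟩
  have hG1 : 1 ≤ G := by
    rw [hG]
    exact Nat.one_le_two_pow
  have h8G : 8 * G = 2 ^ q := by
    rw [hG]
    conv_rhs => rw [← Nat.sub_add_cancel hq3]
    rw [pow_add]
    norm_num [mul_comm]
  obtain ⟨hBM, hsum, hdens, hsub⟩ := hG3 G hG1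
  obtain ⟨F, hF⟩ : ∃ F : ℤ → Set Pl, F = fun l : ℤ => Fb E D ((l - 7) * G) \ Fb E D ((l - 16) * G) := ⟨_, rfl⟩
  obtain ⟨a, ha⟩ : ∃ a : ℤ → ℝ≥0∞, a = fun k : ℤ =>
    volume {x | (2 : ℝ) ^ ((i : ℝ) - ε₃ * u) ≤ hn P Δ ct u q i k E x} := ⟨_, rfl⟩
  obtain ⟨b, hb⟩ : ∃ b : ℤ → ℕ → ℝ≥0∞, b = fun (l : ℤ) (k : ℕ) =>
    volume {x | (2 : ℝ) ^ ((i : ℝ) - ε₃ * u) ≤ ({j : ℕ | j < 2 ^ u ∧ Hit (Δ.sl u j) (ct u j) (Δ.fl u j) u
          ((l - 7) * G + (k : ℤ))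
          {y | Rich (F l) (Δ.sl u j) ((l - 7) * G + (k : ℤ) - (u : ℤ)) ((l - 7) * G + (k : ℤ) - (Δ.fl u j : ℤ))
            (th i) y} x}.ncard : ℝ)} := ⟨_, rfl⟩
  have hab : ∀ l : ℤ, ∀ r < G, a (l * G + r) ≤ b l (7 * G + r) := by
    intro l r hr
    rw [ha, hb]
    refine measure_mono fun x hx => ?_
    have hx' : (2 : ℝ) ^ ((i : ℝ) - ε₃ * u) ≤ hn P Δ ct u q i (l * G + r) E x := hx
    have e1 : (l - 7) * (G : ℤ) + ((7 * G + r : ℕ) : ℤ) = l * G + r := by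
      push_cast
      ring
    show (2 : ℝ) ^ ((i : ℝ) - ε₃ * u) ≤ _
    refine hx'.trans ?_
    rw [e1]
    unfold hn
    have hs := hsub q (l * G + r) l hq3 hG (by linarith [Int.natCast_nonneg r]) (by
      have : (r : ℤ) < G := by exact_mod_cast hr
      linarith)
    have := olv_mono (Δ.sl u) (ct u) (Δ.fl u) u (l * G + r) (th i) _ _ hs x
    rw [hF, ← hD]
    exact_mod_cast this
  have hblock : ∀ l : ℤ, ∑ r ∈ Finset.range G, a (l * G + r) ≤
      ENNReal.ofReal (C * (2 : ℝ) ^ ((P.p - ε') * u)) * volume (F l) := by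
    intro l
    have h1 := H u q i ((l - 7) * G) (Δ.sl u) (ct u) (Δ.fl u) (F l) (by omega) hSlo hj hq hq2 hcrit halt
      (by rw [hF]; exact hBM l) (fun y k' hk' => by
        rw [hF]
        refine (hdens l y k' hk').trans (ENNReal.ofReal_le_ofReal ?_)
        rw [hD8]
        have : 0 ≤ D * (4 : ℝ) ^ k' := by positivity
        linarith)
    refine le_trans ?_ h1
    calc ∑ r ∈ Finset.range G, a (l * G + r) ≤ ∑ r ∈ Finset.range G, b l (7 * G + r) :=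
          Finset.sum_le_sum fun r hr => hab l r (Finset.mem_range.1 hr)
      _ = ∑ k ∈ (Finset.range G).image (fun r => 7 * G + r), b l k := by
          rw [Finset.sum_image]
          intro r _ r' _ h
          simpa using h
      _ ≤ ∑ k ∈ (Finset.range (2 ^ q)).filter (fun k => 7 * 2 ^ q ≤ 8 * k), b l k := by
          refine Finset.sum_le_sum_of_subset ?_
          intro k hk
          obtain ⟨r, hr, rfl⟩ := Finset.mem_image.1 hk
          have hr2 := Finset.mem_range.1 hr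
          rw [Finset.mem_filter, Finset.mem_range, ← h8G]
          constructor <;> omega
      _ = _ := by
          rw [hb]
  calc ∑' k : ℤ, volume {x | (2 : ℝ) ^ ((i : ℝ) - ε₃ * u) ≤ hn P Δ ct u q i k E x} = ∑' k : ℤ, a k := by
        rw [ha]
    _ = ∑' l : ℤ, ∑ r ∈ Finset.range G, a (l * G + r) := olv_blocks G hG1 a
    _ ≤ ∑' l : ℤ, ENNReal.ofReal (C * (2 : ℝ) ^ ((P.p - ε') * u)) * volume (F l) :=
        ENNReal.tsum_le_tsum hblock
    _ = ENNReal.ofReal (C * (2 : ℝ) ^ ((P.p - ε') * u)) * ∑' l : ℤ, volume (F l) := ENNReal.tsum_mul_left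
    _ ≤ ENNReal.ofReal (C * (2 : ℝ) ^ ((P.p - ε') * u)) * (9 * volume E) := by
        gcongr
        rw [hF]
        exact hsum
    _ = ENNReal.ofReal (9 * C * (2 : ℝ) ^ ((P.p - ε') * u)) * volume E := by
        rw [show 9 * C * (2 : ℝ) ^ ((P.p - ε') * u) = 9 * (C * (2 : ℝ) ^ ((P.p - ε') * u)) by ring,
          ENNReal.ofReal_mul (by norm_num : (0 : ℝ) ≤ 9), show ENNReal.ofReal 9 = 9 by norm_num]
        ring

end Pool.Agent.Helper83.ES
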