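import Pool.Agent.Helper85.ES.StI2

/-!
# Project ES (MP_cb927e_an), part I: module OPW, the pointwise bound
-/

set_option autoImplicit false

open MeasureTheory Set Filter Topology
open scoped ENNReal RealInnerProductSpace

namespace Pool.Agent.Helper83.ES

open Pool.Agent.Helper85.ES Pool.Agent.Helper20.RG Pool.Agent.Helper20.RL
open Pool.Agent.Helper68.EP (Fb DQ3 Par Dat Sy q0 q1 DD Fo Rs)
open Pool.Agent.Helper61.EP (Nn D8 trS dat Yc)
open Pool.Agent.Helper68.ES (ag Eg th Rc hn Crit cr Lw)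
open Pool.Agent.Helper68.LM (Pl BB Bd Av HL ft fm DQ)

theorem opw_bb_ind {F : Set Pl} (hF : BM F) : BB (F.indicator 1) := by
  obtain ⟨h1, h2⟩ := hF
  obtain ⟨r, hr⟩ := h2.subset_closedBall (0 : Pl)
  refine ⟨measurable_one.indicator h1, max 1 r, fun x => ?_, fun x hx => ?_⟩
  · by_cases hxF : x ∈ F
    · simp [hxF]
    · simp [hxF]
  · apply indicator_of_notMem
    intro hxF
    have := hr hxF
    rw [Metric.mem_closedBall, dist_zero_right] at this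
    have h3 := le_max_right (1 : ℝ) r
    linarith

theorem opw_ind_nn (F : Set Pl) (x : Pl) : 0 ≤ F.indicator (1 : Pl → ℝ) x :=
  indicator_nonneg (fun _ _ => zero_le_one) x

theorem opw_ind_le (F : Set Pl) (x : Pl) : F.indicator (1 : Pl → ℝ) x ≤ 1 := by
  by_cases hx : x ∈ F
  · simp [hx]
  · simp [hx]

/-- `Y` of an indicator function is nonnegative -/
theorem opw_Y_nn (hYB : Pool.Agent.Helper20.RG.StYB) {F : Set Pl} (hF : BM F) (s : ℝ) (c : Pl)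
    (m : ℕ) (ℓ : ℝ) (k : ℤ) (hs : |s| ≤ 1) (hℓ : 0 < ℓ) (x : Pl) :
    0 ≤ Y s c m ℓ k (F.indicator 1) x :=
  (hYB s c m ℓ k (F.indicator 1) hs hℓ (opw_bb_ind hF)).2.2.1 (opw_ind_nn F) x

/-- `Y` of an indicator function is at most one -/
theorem opw_Y_le (hYB : Pool.Agent.Helper20.RG.StYB) {F : Set Pl} (hF : BM F) (s : ℝ) (c : Pl)
    (m : ℕ) (ℓ : ℝ) (k : ℤ) (hs : |s| ≤ 1) (hℓ : 0 < ℓ) (x : Pl) :
    Y s c m ℓ k (F.indicator 1) x ≤ 1 :=
  (hYB s c m ℓ k (F.indicator 1) hs hℓ (opw_bb_ind hF)).2.2.2.1 1 (opw_ind_le F) x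

/-- `Y` is monotone on indicator functions -/
theorem opw_Y_mono (hYB : Pool.Agent.Helper20.RG.StYB) {E F : Set Pl} (hE : BM E) (hF : BM F)
    (hFE : F ⊆ E) (s : ℝ) (c : Pl)
    (m : ℕ) (ℓ : ℝ) (k : ℤ) (hs : |s| ≤ 1) (hℓ : 0 < ℓ) (x : Pl) :
    Y s c m ℓ k (F.indicator 1) x ≤ Y s c m ℓ k (E.indicator 1) x := by
  have hD : BM (E \ F) := ⟨hE.1.diff hF.1, hE.2.subset sdiff_subset⟩
  have h1 := (hYB s c m ℓ k ((E \ F).indicator 1) hs hℓ (opw_bb_ind hD)).2.2.2.2 1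
    (F.indicator 1) (opw_bb_ind hF) x
  have e : (fun y => 1 * (E \ F).indicator (1 : Pl → ℝ) y + F.indicator 1 y) =
      E.indicator (1 : Pl → ℝ) := by
    funext y
    by_cases hy : y ∈ F
    · have : y ∈ E := hFE hy
      simp [hy, this]
    · by_cases hy2 : y ∈ E
      · simp [hy, hy2]
      · simp [hy, hy2]
  rw [e, one_mul] at h1
  have h2 := opw_Y_nn hYB hD s c m ℓ k hs hℓ x
  linarith

/-- truncated sums of a function dominated by a constant and a finite sum -/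
theorem opw_trS (N Q : ℕ) (t D : ℝ) (v : ℕ → ℝ) (w : ℕ → ℕ → ℝ) (hD : 0 ≤ D)
    (h0 : ∀ j < N, ∀ q < Q, 0 ≤ w q j ∧ w q j ≤ v j)
    (h1 : ∀ j < N, v j ≤ D + ∑ q ∈ Finset.range Q, w q j) :
    trS N t v ≤ N * D + ∑ q ∈ Finset.range Q, trS N t (w q) := by
  unfold trS
  rw [Finset.sum_comm]
  have e : (N : ℝ) * D = ∑ j ∈ Finset.range N, D := by simp
  rw [e, ← Finset.sum_add_distrib]
  refine Finset.sum_le_sum fun j hj => ?_
  have hj2 := Finset.mem_range.1 hj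
  have hnn : 0 ≤ ∑ q ∈ Finset.range Q, (if w q j < t then w q j else 0) := by
    refine Finset.sum_nonneg fun q hq => ?_
    split_ifs
    · exact (h0 j hj2 q (Finset.mem_range.1 hq)).1
    · exact le_rfl
  by_cases hlt : v j < t
  · rw [if_pos hlt]
    refine (h1 j hj2).trans ?_
    gcongr with q hq
    rw [if_pos (lt_of_le_of_lt (h0 j hj2 q (Finset.mem_range.1 hq)).2 hlt)]
  · rw [if_neg hlt]
    linarith

/-- exponential growth beats quadratic growth -/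
theorem opw_exp (a : ℝ) (ha : 0 < a) : ∃ u₀ : ℕ, ∀ u : ℕ, u₀ ≤ u →
    1 + 4 * (u : ℝ) + 8 * (u : ℝ) ^ 2 ≤ (2 : ℝ) ^ (a * u) := by
  obtain ⟨b, hb⟩ : ∃ b : ℝ, b = a * Real.log 2 / 3 := ⟨_, rfl⟩
  have hb0 : 0 < b := by
    rw [hb]
    have := Real.log_pos (show (1 : ℝ) < 2 by norm_num)
    positivity
  refine ⟨⌈13 / b ^ 3⌉₊ + 1, fun u hu => ?_⟩
  have h1 : 13 / b ^ 3 ≤ (u : ℝ) := (Nat.le_ceil _).trans (by exact_mod_cast (by omega : ⌈13 / b ^ 3⌉₊ ≤ u))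
  rw [div_le_iff₀ (by positivity)] at h1
  have hu1 : (1 : ℝ) ≤ u := by exact_mod_cast (by omega : 1 ≤ u)
  have h2 : (2 : ℝ) ^ (a * u) = Real.exp (b * u) ^ 3 := by
    rw [Real.rpow_def_of_pos (by norm_num), ← Real.exp_nat_mul]
    congr 1
    rw [hb]
    push_cast
    ring
  have h3 : b * u ≤ Real.exp (b * u) := by linarith [Real.add_one_le_exp (b * u)]
  have h4 : (b * u) ^ 3 ≤ Real.exp (b * u) ^ 3 := by gcongr
  rw [h2]
  refine le_trans ?_ h4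
  have h5 : 13 * (u : ℝ) ^ 2 ≤ (u * b ^ 3) * (u : ℝ) ^ 2 := by gcongr
  have h6 : (b * u) ^ 3 = (u * b ^ 3) * (u : ℝ) ^ 2 := by ring
  rw [h6]
  nlinarith

/-- Sums over the levels: the critical levels give at most `cr`, each of the other levels at most `a`. -/
theorem opw_sum (P : Par) (Δ : Dat) (ct : ℕ → ℕ → Pl) (e a : ℝ) (u Q : ℕ) (k : ℤ) (E : Set Pl) (x : Pl)
    (I : Finset ℕ) (hQ : Q ≤ 2 * u) (hI : I ⊆ Finset.range (2 * u)) (ha : 0 ≤ a)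
    (h : ∀ q < Q, ∀ i ∈ I, ¬ Crit P.p e u q i → (2 : ℝ) ^ (-(i : ℤ)) * hn P Δ ct u q i k E x ≤ a) :
    ∑ q ∈ Finset.range Q, ∑ i ∈ I, (2 : ℝ) ^ (-(i : ℤ)) * hn P Δ ct u q i k E x ≤
      cr P Δ ct e u k E x + 4 * (u : ℝ) ^ 2 * a := by
  classical
  have hnn : ∀ q i : ℕ, 0 ≤ (if Crit P.p e u q i then (2 : ℝ) ^ (-(i : ℤ)) * hn P Δ ct u q i k E x else 0) := by
    intro q i
    split_ifs
    · exact mul_nonneg (by positivity) (by unfold hn; positivity)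
    · exact le_rfl
  have h1 : ∀ q ∈ Finset.range Q, ∀ i ∈ I, (2 : ℝ) ^ (-(i : ℤ)) * hn P Δ ct u q i k E x ≤
      (if Crit P.p e u q i then (2 : ℝ) ^ (-(i : ℤ)) * hn P Δ ct u q i k E x else 0) + a := by
    intro q hq i hi
    by_cases hc : Crit P.p e u q i
    · rw [if_pos hc]
      linarith
    · rw [if_neg hc, zero_add]
      exact h q (Finset.mem_range.1 hq) i hi hc
  have h2 : ∑ q ∈ Finset.range Q, ∑ i ∈ I, (2 : ℝ) ^ (-(i : ℤ)) * hn P Δ ct u q i k E x ≤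
      ∑ q ∈ Finset.range (2 * u), ∑ i ∈ Finset.range (2 * u),
        ((if Crit P.p e u q i then (2 : ℝ) ^ (-(i : ℤ)) * hn P Δ ct u q i k E x else 0) + a) := by
    refine (Finset.sum_le_sum fun q hq => Finset.sum_le_sum (h1 q hq)).trans ?_
    refine (Finset.sum_le_sum_of_subset_of_nonneg (Finset.range_subset_range.2 hQ) fun q _ _ =>
      Finset.sum_nonneg fun i _ => add_nonneg (hnn q i) ha).trans ?_
    refine Finset.sum_le_sum fun q _ => ?_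
    exact Finset.sum_le_sum_of_subset_of_nonneg hI fun i _ _ => add_nonneg (hnn q i) ha
  refine h2.trans (le_of_eq ?_)
  unfold cr
  simp only [Finset.sum_add_distrib, Finset.sum_const, Finset.card_range, nsmul_eq_mul]
  push_cast
  ring

/-- Module OPW. -/
theorem hOPW (hYB : Pool.Agent.Helper20.RG.StYB) (hODE : Pool.Agent.Helper85.ES.StODE)
    (hOVL : Pool.Agent.Helper85.ES.StOVL) (hOEG : Pool.Agent.Helper85.ES.StOEG) :
    Pool.Agent.Helper85.ES.StOPW := by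
  intro P e ε₃' R hε₃'
  have hs := P.hs
  have hsp := P.hsp
  have hp := P.hp
  have hε := P.hε
  have hεs := P.hεs
  have hg : 0 < P.g := by unfold Par.g; linarith
  obtain ⟨ε₃, hε₃⟩ : ∃ ε₃ : ℝ, ε₃ = min (min ε₃' (P.s - 1)) 1 / 2 := ⟨_, rfl⟩
  have hε₃a : 2 * ε₃ ≤ ε₃' := by
    have := (min_le_left (min ε₃' (P.s - 1)) 1).trans (min_le_left _ _)
    linarith
  have hε₃b : 2 * ε₃ ≤ P.s - 1 := by
    have := (min_le_left (min ε₃' (P.s - 1)) 1).trans (min_le_right _ _)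
    linarith
  have hε₃c : 2 * ε₃ ≤ 1 := by
    have := min_le_right (min ε₃' (P.s - 1)) 1
    linarith
  have hε₃0 : 0 < ε₃ := by
    rw [hε₃]
    have : 0 < min (min ε₃' (P.s - 1)) 1 := lt_min (lt_min hε₃' (by linarith)) one_pos
    linarith
  obtain ⟨u₁, hu₁⟩ := opw_exp ε₃ hε₃0
  refine ⟨u₁ + ⌈16 / P.g⌉₊ + 1, ε₃, hε₃0, ?_⟩
  intro φ τ c u Q k E x hG hu hj hQ1 hQ2 hE hloc hlev
  have huu : u₁ ≤ u := by omega
  have hu1 : 1 ≤ u := by omega
  have hu1R : (1 : ℝ) ≤ (u : ℝ) := by exact_mod_cast hu1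
  have hgu : 1 ≤ P.g / 16 * (u : ℝ) := by
    have h1 : ⌈16 / P.g⌉₊ ≤ u := by omega
    have h2 : 16 / P.g ≤ (u : ℝ) := (Nat.le_ceil _).trans (by exact_mod_cast h1)
    rw [div_le_iff₀ hg] at h2
    linarith
  obtain ⟨D, hD⟩ : ∃ D : ℝ, D = DD P u := ⟨_, rfl⟩
  have hDpos : 0 < D := by
    rw [hD]
    unfold DD
    positivity
  have hℓ : (0 : ℝ) < 1 / (2 : ℝ) ^ u := by positivity
  obtain ⟨hEg, -, -⟩ := hOEG E D hE hDpos
  -- the values
  obtain ⟨v, hv⟩ : ∃ v : ℕ → ℝ, v = fun j => Y (τ (tm u j)) (ce c φ u j) (mm τ u j) (1 / (2 : ℝ) ^ u) k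
    (E.indicator 1) x := ⟨_, rfl⟩
  obtain ⟨w, hw⟩ : ∃ w : ℕ → ℕ → ℝ, w = fun q j => Y (τ (tm u j)) (ce c φ u j) (mm τ u j)
    (1 / (2 : ℝ) ^ u) k ((Eg E D q k).indicator 1) x := ⟨_, rfl⟩
  have hw0 : ∀ q j, 0 ≤ w q j := fun q j => by
    rw [hw]
    exact opw_Y_nn hYB (hEg q k).1 _ _ _ _ _ (hG.1 _) hℓ x
  have hw1 : ∀ q j, w q j ≤ 1 := fun q j => by
    rw [hw]
    exact opw_Y_le hYB (hEg q k).1 _ _ _ _ _ (hG.1 _) hℓ x
  have hwv : ∀ q j, w q j ≤ v j := fun q j => by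
    rw [hw, hv]
    exact opw_Y_mono hYB hE (hEg q k).1 (hEg q k).2 _ _ _ _ _ (hG.1 _) hℓ x
  have hloc' : Loc (R + 10) (D / 4) (E.indicator 1) x := by rw [hD]; exact hloc
  -- the number `q0`
  have hq01 : 1 ≤ q0 P u := by
    unfold q0
    apply Nat.le_floor
    push_cast
    nlinarith
  have hq0le : ((q0 P u : ℕ) : ℝ) ≤ (P.p - P.ε) * u := by
    unfold q0
    exact Nat.floor_le (by nlinarith)
  have hq02 : q0 P u ≤ 2 * u := by
    have h1 : ((q0 P u : ℕ) : ℝ) ≤ ((2 * u : ℕ) : ℝ) := by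
      refine hq0le.trans ?_
      push_cast
      nlinarith
    exact_mod_cast h1
  -- the first part
  have hA : trS (2 ^ u) ((2 : ℝ) ^ (-(P.g / 8 * u))) v ≤
      ((2 ^ u : ℕ) : ℝ) * D + ∑ q ∈ Finset.range Q, trS (2 ^ u) ((2 : ℝ) ^ (-(P.g / 8 * u))) (w q) := by
    refine opw_trS (2 ^ u) Q _ D v w hDpos.le (fun j _ q _ => ⟨hw0 q j, hwv q j⟩) (fun j hj' => ?_)
    obtain ⟨h1, h2, h3⟩ := hj j hj'
    have := (hODE E D R (R + 10) Q (τ (tm u j)) (ce c φ u j) (mm τ u j) u x k hE hDpos (hG.1 _) h1 h2 hQ1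
      le_rfl hloc').1 h3
    rw [hv, hw]
    exact this
  -- the second part
  have hB : ∑ j ∈ Finset.range (2 ^ u), Yc c φ τ u k ((E \ Fo P u k (q0 P u) E).indicator 1) x j ≤
      ∑ q ∈ Finset.range (q0 P u), trS (2 ^ u) 2 (w q) := by
    have h1 : ∀ j ∈ Finset.range (2 ^ u), Yc c φ τ u k ((E \ Fo P u k (q0 P u) E).indicator 1) x j ≤
        ∑ q ∈ Finset.range (q0 P u), w q j := by
      intro j hj'
      obtain ⟨h1, h2, h3⟩ := hj j (Finset.mem_range.1 hj')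
      have := (hODE E D R (R + 10) (q0 P u) (τ (tm u j)) (ce c φ u j) (mm τ u j) u x k hE hDpos (hG.1 _)
        h1 h2 hq01 le_rfl hloc').2
      rw [hw]
      unfold Yc Fo
      rw [← hD]
      exact this
    refine (Finset.sum_le_sum h1).trans ?_
    rw [Finset.sum_comm]
    refine Finset.sum_le_sum fun q _ => ?_
    unfold trS
    refine Finset.sum_le_sum fun j _ => ?_
    rw [if_pos (lt_of_le_of_lt (hw1 q j) one_lt_two)]
  -- one level
  have hC : ∀ (t : ℝ) (q : ℕ), trS (2 ^ u) t (w q) ≤ (2 : ℝ) ^ (-(u : ℤ)) +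
      ∑ i ∈ (Finset.range (2 * u)).filter (fun i : ℕ => (2 : ℝ) ^ (-(i : ℤ) - 1) < t),
        (2 : ℝ) ^ (-(i : ℤ)) * hn P (dat τ) (ce c φ) u q i k E x := by
    intro t q
    have := hOVL u k t (fun j => τ (tm u j)) (ce c φ u) (mm τ u) (Eg E D q k) x hu1 (hEg q k).1
      (fun j hj' => ⟨hG.1 _, (hj j hj').2.1⟩)
    rw [hw]
    refine this.trans (le_of_eq ?_)
    congr 1
    refine Finset.sum_congr rfl fun i _ => ?_
    unfold hn
    rw [← hD]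
    rfl
  -- levels which are not critical
  have hlev2 : ∀ q i : ℕ, (q < Q ∨ q < q0 P u) → i < 2 * u → ¬ Crit P.p e u q i →
        (P.g / 16 * u ≤ i ∨ (q : ℝ) ≤ (P.p - P.ε) * u) →
        (2 : ℝ) ^ (-(i : ℤ)) * hn P (dat τ) (ce c φ) u q i k E x ≤ (2 : ℝ) ^ (-(ε₃' * u)) := by
    intro q i h1 h2 h3 h4
    have h5 := (hlev q i h1 h2 h3 h4).le
    calc (2 : ℝ) ^ (-(i : ℤ)) * hn P (dat τ) (ce c φ) u q i k E x
        ≤ (2 : ℝ) ^ (-(i : ℤ)) * (2 : ℝ) ^ ((i : ℝ) - ε₃' * u) := by gcongr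
      _ = (2 : ℝ) ^ (-(ε₃' * u)) := by
        rw [← Real.rpow_intCast, ← Real.rpow_add (by norm_num)]
        congr 1
        push_cast
        ring
  obtain ⟨a, ha⟩ : ∃ a : ℝ, a = (2 : ℝ) ^ (-(ε₃' * u)) := ⟨_, rfl⟩
  rw [← ha] at hlev2
  have ha0 : 0 ≤ a := by rw [ha]; positivity
  have hcr : 0 ≤ cr P (dat τ) (ce c φ) e u k E x := by
    unfold cr
    refine Finset.sum_nonneg fun q _ => Finset.sum_nonneg fun i _ => ?_
    split_ifs
    · exact mul_nonneg (by positivity) (by unfold hn; positivity)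
    · exact le_rfl
  have hA2 : ∑ q ∈ Finset.range Q, trS (2 ^ u) ((2 : ℝ) ^ (-(P.g / 8 * u))) (w q) ≤
      2 * u * (2 : ℝ) ^ (-(u : ℤ)) + (cr P (dat τ) (ce c φ) e u k E x + 4 * (u : ℝ) ^ 2 * a) := by
    refine (Finset.sum_le_sum fun q _ => hC _ q).trans ?_
    rw [Finset.sum_add_distrib]
    refine add_le_add ?_ ?_
    · rw [Finset.sum_const, Finset.card_range, nsmul_eq_mul]
      refine mul_le_mul_of_nonneg_right ?_ (by positivity)
      exact_mod_cast hQ2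
    · refine opw_sum P (dat τ) (ce c φ) e a u Q k E x _ hQ2 (Finset.filter_subset _ _) ha0 ?_
      intro q hq i hi hc
      obtain ⟨hi1, hi2⟩ := Finset.mem_filter.1 hi
      refine hlev2 q i (Or.inl hq) (Finset.mem_range.1 hi1) hc (Or.inl ?_)
      rw [← Real.rpow_intCast, Real.rpow_lt_rpow_left_iff (by norm_num)] at hi2
      push_cast at hi2
      linarith
  have hB2 : ∑ q ∈ Finset.range (q0 P u), trS (2 ^ u) 2 (w q) ≤
      2 * u * (2 : ℝ) ^ (-(u : ℤ)) + (cr P (dat τ) (ce c φ) e u k E x + 4 * (u : ℝ) ^ 2 * a) := by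
    refine (Finset.sum_le_sum fun q _ => hC _ q).trans ?_
    rw [Finset.sum_add_distrib]
    refine add_le_add ?_ ?_
    · rw [Finset.sum_const, Finset.card_range, nsmul_eq_mul]
      refine mul_le_mul_of_nonneg_right ?_ (by positivity)
      exact_mod_cast hq02
    · refine opw_sum P (dat τ) (ce c φ) e a u (q0 P u) k E x _ hq02 (Finset.filter_subset _ _) ha0 ?_
      intro q hq i hi hc
      obtain ⟨hi1, hi2⟩ := Finset.mem_filter.1 hi
      refine hlev2 q i (Or.inr hq) (Finset.mem_range.1 hi1) hc (Or.inr ?_)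
      refine le_trans ?_ hq0le
      exact_mod_cast hq.le
  -- the numbers
  have hn1 : ((2 ^ u : ℕ) : ℝ) * D ≤ (2 : ℝ) ^ (-(2 * ε₃ * u)) := by
    have e1 : ((2 ^ u : ℕ) : ℝ) * D = (2 : ℝ) ^ (-((P.s - 1) * u)) := by
      rw [hD]
      unfold DD
      push_cast
      rw [← Real.rpow_natCast, ← Real.rpow_add (by norm_num)]
      congr 1
      ring
    rw [e1]
    apply Real.rpow_le_rpow_of_exponent_le (by norm_num)
    nlinarith
  have hn2 : (2 : ℝ) ^ (-(u : ℤ)) ≤ (2 : ℝ) ^ (-(2 * ε₃ * u)) := by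
    rw [← Real.rpow_intCast]
    apply Real.rpow_le_rpow_of_exponent_le (by norm_num)
    push_cast
    nlinarith
  have hn3 : a ≤ (2 : ℝ) ^ (-(2 * ε₃ * u)) := by
    rw [ha]
    apply Real.rpow_le_rpow_of_exponent_le (by norm_num)
    nlinarith
  have hfin : (2 : ℝ) ^ (-(2 * ε₃ * u)) * (1 + 4 * (u : ℝ) + 8 * (u : ℝ) ^ 2) ≤ (2 : ℝ) ^ (-(ε₃ * u)) := by
    calc (2 : ℝ) ^ (-(2 * ε₃ * u)) * (1 + 4 * (u : ℝ) + 8 * (u : ℝ) ^ 2)
        ≤ (2 : ℝ) ^ (-(2 * ε₃ * u)) * (2 : ℝ) ^ (ε₃ * u) := by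
          gcongr
          exact hu₁ u huu
      _ = (2 : ℝ) ^ (-(ε₃ * u)) := by
          rw [← Real.rpow_add (by norm_num)]
          congr 1
          ring
  have hLw : Lw P c φ τ u k E x = trS (2 ^ u) ((2 : ℝ) ^ (-(P.g / 8 * u))) v +
      ∑ j ∈ Finset.range (2 ^ u), Yc c φ τ u k ((E \ Fo P u k (q0 P u) E).indicator 1) x j := by
    rw [hv]
    rfl
  rw [hLw]
  obtain ⟨B, hBdef⟩ : ∃ B : ℝ, B = (2 : ℝ) ^ (-(2 * ε₃ * u)) := ⟨_, rfl⟩
  rw [← hBdef] at hn1 hn2 hn3 hfin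
  have hk1 : 4 * (u : ℝ) * (2 : ℝ) ^ (-(u : ℤ)) ≤ 4 * (u : ℝ) * B := by gcongr
  have hk2 : 8 * (u : ℝ) ^ 2 * a ≤ 8 * (u : ℝ) ^ 2 * B := by gcongr
  nlinarith [hA, hB, hA2, hB2, hk1, hk2, hn1, hfin, hcr]

end Pool.Agent.Helper83.ES
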